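import Pool.Agent.Run7.h991.PS.Iface

/-!
# Piece ATOM
-/

open MeasureTheory

namespace H991.PS

theorem h593_eq {n : ℕ} (z ζ : S n) (h : ‖ip z.1 ζ.1‖ = 1) : z.1 = ip z.1 ζ.1 • ζ.1 := by
  have h1 := @norm_sub_sq ℂ (V n) _ _ _ z.1 (ip z.1 ζ.1 • ζ.1)
  have h2 : inner ℂ z.1 (ip z.1 ζ.1 • ζ.1) = ((‖ip z.1 ζ.1‖ ^ 2 : ℝ) : ℂ) := by
    rw [inner_smul_right]
    have h3 : inner ℂ z.1 ζ.1 = starRingEnd ℂ (ip z.1 ζ.1) := by
      unfold ip
      rw [inner_conj_symm]
    rw [h3, Complex.mul_conj, Complex.normSq_eq_norm_sq]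
  rw [h2, nrm z, norm_smul, nrm ζ, h] at h1
  have h4 : ‖z.1 - ip z.1 ζ.1 • ζ.1‖ ^ 2 = 0 := by
    rw [h1]
    simp
    norm_num
  have h5 : ‖z.1 - ip z.1 ζ.1 • ζ.1‖ = 0 := by
    exact pow_eq_zero_iff (two_ne_zero) |>.1 h4
  exact sub_eq_zero.1 (norm_eq_zero.1 h5)

theorem h593_diag {n : ℕ} {u : C(S n, ℝ)} {D : ℕ} {c : ℤ → C(S n, ℂ)} (hu : ∀ z, 0 < u z)
    (hc : FData u D c) (z ζ : S n) (h : ‖ip z.1 ζ.1‖ = 1) : ‖BB D c ζ z‖ = u z := by
  set w : ℂ := ip z.1 ζ.1 with hw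
  have hw0 : w ≠ 0 := by
    intro h0
    rw [h0] at h
    simp at h
  have hz : z.1 = w • ζ.1 := h593_eq z ζ h
  have h1 : BB D c ζ z = w ^ D * ((u z : ℝ) : ℂ) := by
    rw [BB_apply, hc.2 z, Finset.mul_sum]
    refine Finset.sum_congr rfl fun k hk => ?_
    rw [Finset.mem_Icc] at hk
    have h2 : c k z = w ^ k * c k ζ := hc.1 k w h ζ z hz
    have h3 : w ^ ((k + D).toNat) = w ^ k * w ^ D := by
      have h4 : (((k + D).toNat : ℕ) : ℤ) = k + D := Int.toNat_of_nonneg (by linarith [hk.1])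
      rw [← zpow_natCast w ((k + D).toNat), h4, zpow_add₀ hw0, zpow_natCast]
    rw [← hw, h3, h2]
    ring
  rw [h1, norm_mul, norm_pow, h, one_pow, one_mul, Complex.norm_real, Real.norm_eq_abs,
    abs_of_pos (hu z)]

theorem h593_cont {n : ℕ} (D : ℕ) (c : ℤ → C(S n, ℂ)) :
    Continuous fun q : S n × S n => BB D c q.2 q.1 := by
  simp only [BB_apply]
  unfold ip
  fun_prop

theorem t_ATOM : S_ATOM := by
  intro n u D c hu hc
  have hcont := h593_cont D c
  constructor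
  · obtain ⟨M, hM⟩ := isCompact_univ.exists_bound_of_continuousOn hcont.continuousOn
    exact ⟨M, fun z ζ => hM (z, ζ) (Set.mem_univ _)⟩
  · intro ε hε
    set Φ : S n × S n → ℝ := fun q => |‖BB D c q.2 q.1‖ - u q.1| with hΦ
    have hΦc : Continuous Φ := by
      have h1 : Continuous fun q : S n × S n => u q.1 := u.continuous.comp continuous_fst
      exact (hcont.norm.sub h1).abs
    set g : S n × S n → ℝ := fun q => 1 - ‖ip q.1.1 q.2.1‖ ^ 2 with hg
    have hgc : Continuous g := by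
      simp only [hg]
      unfold ip
      fun_prop
    have hK : IsCompact {q | ε ≤ Φ q} := (isClosed_le continuous_const hΦc).isCompact
    by_cases hne : {q | ε ≤ Φ q}.Nonempty
    · obtain ⟨q0, hq0, hmin⟩ := hK.exists_isMinOn hne hgc.continuousOn
      have hpos : 0 < g q0 := by
        by_contra hcon
        rw [not_lt] at hcon
        have h1 := ip_norm_le q0.1 q0.2
        have h2 : ‖ip q0.1.1 q0.2.1‖ = 1 := by
          have h3 : 1 ≤ ‖ip q0.1.1 q0.2.1‖ ^ 2 := by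
            simp only [hg] at hcon
            linarith
          nlinarith [norm_nonneg (ip q0.1.1 q0.2.1)]
        have h4 := h593_diag hu hc q0.1 q0.2 h2
        have h5 : Φ q0 = 0 := by
          simp only [hΦ]
          rw [h4, sub_self, abs_zero]
        have h6 : ε ≤ Φ q0 := hq0
        linarith
      refine ⟨g q0 / 2, by positivity, fun z ζ h => ?_⟩
      by_contra hcon
      rw [not_le] at hcon
      have h1 : (z, ζ) ∈ {q | ε ≤ Φ q} := le_of_lt hcon
      have h2 := hmin h1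
      have h3 : g q0 ≤ 1 - ‖ip z.1 ζ.1‖ ^ 2 := h2
      linarith
    · refine ⟨1, one_pos, fun z ζ _ => ?_⟩
      by_contra hcon
      rw [not_le] at hcon
      exact hne ⟨(z, ζ), le_of_lt hcon⟩

end H991.PS
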