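import Pool.Agent.Run7.h991.PS.Iface

/-!
# Pieces UPP, LOW, SIGN
-/

open MeasureTheory

namespace H991.PS

theorem h593_min {n : ℕ} (u : C(S n, ℝ)) (hu : ∀ z, 0 < u z) (z0 : S n) :
    ∃ m : ℝ, 0 < m ∧ ∀ z, m ≤ u z := by
  obtain ⟨q, -, hq⟩ := isCompact_univ.exists_isMinOn ⟨z0, Set.mem_univ z0⟩ u.continuous.continuousOn
  exact ⟨u q, hu q, fun z => hq (Set.mem_univ z)⟩

theorem t_UPP (hA : S_ATOM) : S_UPP := by
  intro n C hC u D c hu hc
  by_cases hne : Nonempty (S n)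
  · obtain ⟨z0⟩ := hne
    obtain ⟨m, hm, hmu⟩ := h593_min u hu z0
    obtain ⟨⟨M, hM⟩, hη⟩ := hA n u D c hu hc
    obtain ⟨η, hη0, hη⟩ := hη (m / 2) (by positivity)
    have hM0 : 0 ≤ M := (norm_nonneg _).trans (hM z0 z0)
    set r : ℝ := Real.sqrt (1 - η) with hr
    have hr0 : 0 ≤ r := Real.sqrt_nonneg _
    have hr1 : r < 1 := by
      rw [hr, Real.sqrt_lt' one_pos]
      linarith
    obtain ⟨N0, hN0⟩ : ∃ N0 : ℕ, M * r ^ N0 ≤ m := by
      have h1 : Filter.Tendsto (fun N : ℕ => M * r ^ N) Filter.atTop (nhds (M * 0)) :=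
        (tendsto_pow_atTop_nhds_zero_of_lt_one hr0 hr1).const_mul M
      rw [mul_zero] at h1
      have h2 := (h1.eventually (gt_mem_nhds hm)).exists
      obtain ⟨N, hN⟩ := h2
      exact ⟨N, hN.le⟩
    refine ⟨N0, fun N hN Λ hΛ z => ?_⟩
    have key : ∀ ζ : S n, ‖atom D c N ζ z‖ ≤ 2 * u z * ‖ip z.1 ζ.1‖ ^ N := by
      intro ζ
      rw [atom_apply, norm_mul, norm_pow]
      set ρ : ℝ := ‖ip z.1 ζ.1‖ with hρ
      have hρ0 : 0 ≤ ρ := norm_nonneg _
      have hρ1 : ρ ≤ 1 := ip_norm_le z ζ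
      have hmz := hmu z
      have hpow : ρ ^ (2 * N) = ρ ^ N * ρ ^ N := by rw [two_mul, pow_add]
      have hN1 : 0 ≤ ρ ^ N := by positivity
      by_cases hcase : 1 - ρ ^ 2 ≤ η
      · have h1 := hη z ζ hcase
        have h2 : ‖BB D c ζ z‖ ≤ 2 * u z := by
          have := (abs_le.1 h1).2
          linarith
        have h3 : ρ ^ N ≤ 1 := pow_le_one₀ hρ0 hρ1
        rw [hpow]
        calc ρ ^ N * ρ ^ N * ‖BB D c ζ z‖ ≤ ρ ^ N * 1 * (2 * u z) := by gcongr
          _ = 2 * u z * ρ ^ N := by ring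
      · rw [not_le] at hcase
        have h1 : ρ ≤ r := by
          rw [hr]
          apply Real.le_sqrt_of_sq_le
          linarith
        have h2 : ρ ^ N ≤ r ^ N0 := by
          calc ρ ^ N ≤ r ^ N := pow_le_pow_left₀ hρ0 h1 N
            _ ≤ r ^ N0 := pow_le_pow_of_le_one hr0 hr1.le hN
        rw [hpow]
        calc ρ ^ N * ρ ^ N * ‖BB D c ζ z‖ ≤ ρ ^ N * r ^ N0 * M := by
              have := hM z ζ
              gcongr
          _ = ρ ^ N * (M * r ^ N0) := by ring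
          _ ≤ ρ ^ N * (2 * u z) := by
              have : M * r ^ N0 ≤ 2 * u z := by linarith
              gcongr
          _ = 2 * u z * ρ ^ N := by ring
    calc ∑ ζ ∈ Λ, ‖atom D c N ζ z‖ ≤ ∑ ζ ∈ Λ, 2 * u z * ‖ip z.1 ζ.1‖ ^ N :=
          Finset.sum_le_sum fun ζ _ => key ζ
      _ = 2 * u z * ∑ ζ ∈ Λ, ‖ip z.1 ζ.1‖ ^ N := by rw [Finset.mul_sum]
      _ ≤ 2 * u z * C := by
          have := hu z
          have := hΛ z
          gcongr
      _ = 2 * C * u z := by ring
  · exact ⟨0, fun N _ Λ _ z => absurd ⟨z⟩ hne⟩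

theorem t_LOW (hA : S_ATOM) : S_LOW := by
  intro n u D c hu hc
  by_cases hne : Nonempty (S n)
  · obtain ⟨z0⟩ := hne
    obtain ⟨m, hm, hmu⟩ := h593_min u hu z0
    obtain ⟨-, hη⟩ := hA n u D c hu hc
    obtain ⟨η, hη0, hη⟩ := hη (m / 2) (by positivity)
    obtain ⟨N0, hN0⟩ := exists_nat_gt (1 / (8 * η))
    refine ⟨max N0 1, fun N hN z ζ h => ?_⟩
    have hN1 : 1 ≤ N := (le_max_right _ _).trans hN
    have hN2 : N0 ≤ N := (le_max_left _ _).trans hN
    have hNr : (1 : ℝ) ≤ N := by exact_mod_cast hN1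
    have hNr2 : (N0 : ℝ) ≤ N := by exact_mod_cast hN2
    set ρ : ℝ := ‖ip z.1 ζ.1‖ with hρ
    have hρ0 : 0 ≤ ρ := norm_nonneg _
    have h1 : 1 / (8 * (N : ℝ)) ≤ η := by
      rw [div_le_iff₀ (by positivity)]
      rw [div_lt_iff₀ (by positivity)] at hN0
      nlinarith
    have h2 := hη z ζ (by linarith)
    have h3 : u z / 2 ≤ ‖BB D c ζ z‖ := by
      have := (abs_le.1 h2).1
      have := hmu z
      linarith
    have h4 : (3 / 4 : ℝ) ≤ (ρ ^ 2) ^ (2 * N) := by
      have h5 : (1 : ℝ) + ((2 * N : ℕ) : ℝ) * (-(1 / (8 * (N : ℝ)))) ≤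
          (1 + (-(1 / (8 * (N : ℝ))))) ^ (2 * N) := by
        apply one_add_mul_le_pow
        have : 1 / (8 * (N : ℝ)) ≤ 1 := by
          rw [div_le_one (by positivity)]
          linarith
        linarith
      have h6 : (1 : ℝ) + ((2 * N : ℕ) : ℝ) * (-(1 / (8 * (N : ℝ)))) = 3 / 4 := by
        push_cast
        field_simp
        norm_num
      rw [h6] at h5
      refine h5.trans ?_
      have h7 : 0 ≤ 1 + (-(1 / (8 * (N : ℝ)))) := by
        have : 1 / (8 * (N : ℝ)) ≤ 1 := by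
          rw [div_le_one (by positivity)]
          linarith
        linarith
      exact pow_le_pow_left₀ h7 (by linarith) _
    rw [atom_apply, norm_mul, norm_pow, mul_pow]
    have h8 : (ρ ^ (2 * N)) ^ 2 = (ρ ^ 2) ^ (2 * N) := by
      rw [← pow_mul, ← pow_mul]
      ring_nf
    rw [← hρ, h8]
    have huz := hu z
    calc u z ^ 2 / 16 ≤ 3 / 4 * (u z / 2) ^ 2 := by nlinarith [sq_nonneg (u z)]
      _ ≤ (ρ ^ 2) ^ (2 * N) * ‖BB D c ζ z‖ ^ 2 := by gcongr
  · exact ⟨0, fun N _ z => absurd ⟨z⟩ hne⟩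

theorem t_SIGN : S_SIGN := by
  intro n σ _ Λ a ω hω
  classical
  induction Λ using Finset.induction_on with
  | empty =>
    refine ⟨fun _ => 1, fun _ => Or.inl rfl, ?_⟩
    simp
  | insert x Λ hx ih =>
    obtain ⟨e, he, hle⟩ := ih
    set A : S n → ℂ := fun z => ∑ ζ ∈ Λ, ((e ζ : ℝ) : ℂ) * a ζ z with hA
    have hAc : Continuous A := by
      simp only [hA]
      fun_prop
    have hsum : ∀ (s : ℝ) (z : S n), ∑ ζ ∈ insert x Λ,
        ((Function.update e x s ζ : ℝ) : ℂ) * a ζ z = (s : ℂ) * a x z + A z := by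
      intro s z
      rw [Finset.sum_insert hx, Function.update_self]
      congr 1
      refine Finset.sum_congr rfl fun ζ hζ => ?_
      have : ζ ≠ x := fun h => hx (h ▸ hζ)
      rw [Function.update_of_ne this]
    have i1 : Integrable (fun z => ‖a x z + A z‖ ^ 2 * ω z) σ := cint σ (by fun_prop)
    have i2 : Integrable (fun z => ‖-a x z + A z‖ ^ 2 * ω z) σ := cint σ (by fun_prop)
    have i3 : Integrable (fun z => ‖a x z‖ ^ 2 * ω z) σ := cint σ (by fun_prop)
    have i4 : Integrable (fun z => ‖A z‖ ^ 2 * ω z) σ := cint σ (by fun_prop)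
    have hpar : (∫ z, ‖a x z + A z‖ ^ 2 * ω z ∂σ) + ∫ z, ‖-a x z + A z‖ ^ 2 * ω z ∂σ =
        2 * (∫ z, ‖a x z‖ ^ 2 * ω z ∂σ) + 2 * ∫ z, ‖A z‖ ^ 2 * ω z ∂σ := by
      rw [← integral_add i1 i2, ← integral_const_mul, ← integral_const_mul,
        ← integral_add (i3.const_mul 2) (i4.const_mul 2)]
      refine integral_congr_ae (Filter.Eventually.of_forall fun z => ?_)
      have h1 := parallelogram_law_with_norm ℂ (A z) (a x z)
      have h2 : ‖-a x z + A z‖ = ‖A z - a x z‖ := by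
        congr 1
        ring
      have h3 : ‖a x z + A z‖ = ‖A z + a x z‖ := by rw [add_comm]
      simp only []
      rw [h2, h3]
      linear_combination (ω z) * h1
    rw [Finset.sum_insert hx]
    by_cases hcase : (∫ z, ‖a x z‖ ^ 2 * ω z ∂σ) + ∫ z, ‖A z‖ ^ 2 * ω z ∂σ ≤
        ∫ z, ‖a x z + A z‖ ^ 2 * ω z ∂σ
    · refine ⟨Function.update e x 1, ?_, ?_⟩
      · intro ζ
        by_cases h : ζ = x
        · subst h
          rw [Function.update_self]
          exact Or.inl rfl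
        · rw [Function.update_of_ne h]
          exact he ζ
      · simp only [hsum, Complex.ofReal_one, one_mul]
        linarith
    · rw [not_le] at hcase
      refine ⟨Function.update e x (-1), ?_, ?_⟩
      · intro ζ
        by_cases h : ζ = x
        · subst h
          rw [Function.update_self]
          exact Or.inr rfl
        · rw [Function.update_of_ne h]
          exact he ζ
      · simp only [hsum, Complex.ofReal_neg, Complex.ofReal_one, neg_mul, one_mul]
        linarith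

end H991.PS
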